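import Mathlib

/-!
# Ranks on bounded Baire class 1 functions: definitions
-/

set_option autoImplicit false

open Set Filter Topology

namespace Pool.Agent.V11238.BR

/-- `θ ≲ θ'`: for every `1 ≤ η < ω₁`, `θ' ≤ ω ^ η` implies `θ ≤ ω ^ η`. -/
def Below (θ θ' : Ordinal.{0}) : Prop :=
  ∀ η : Ordinal.{0}, 1 ≤ η → η < Ordinal.omega 1 →
    θ' ≤ Ordinal.omega0 ^ η → θ ≤ Ordinal.omega0 ^ η

/-- `θ ≈ θ'`. -/
def Similar (θ θ' : Ordinal.{0}) : Prop := Below θ θ' ∧ Below θ' θ

/-- The even ordinals: those of the form `2 * ξ` (`ξ` copies of `2`), i.e. `μ + 2 * n` with `μ` zero or a limit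
and `n` a natural number. -/
def EvenOrd (η : Ordinal.{0}) : Prop := ∃ ξ : Ordinal.{0}, η = 2 * ξ

/-- A decreasing continuous sequence of length `lam` of closed subsets of `X`, starting with `X`, extended by the
empty set from `lam` on. -/
structure IsSeq {X : Type} [TopologicalSpace X] (lam : Ordinal.{0}) (F : Ordinal.{0} → Set X) : Prop where
  closed : ∀ η, IsClosed (F η)
  anti : ∀ η θ, η ≤ θ → F θ ⊆ F η
  zero : F 0 = univ
  limit : ∀ η, Order.IsSuccLimit η → F η = ⋂ θ ∈ Iio η, F θ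
  empty : ∀ η, lam ≤ η → F η = ∅

/-- The transfinite difference `⋃ (F η \ F (η + 1))` over the even `η < lam`. -/
def transDiff {X : Type} (lam : Ordinal.{0}) (F : Ordinal.{0} → Set X) : Set X :=
  {x | ∃ η, η < lam ∧ EvenOrd η ∧ x ∈ F η ∧ x ∉ F (η + 1)}

/-- `α₁(B, C)`: the least length of a sequence whose transfinite difference contains `B` and misses `C`. -/
noncomputable def sepRank {X : Type} [TopologicalSpace X] (B C : Set X) : Ordinal.{0} :=
  sInf {lam | ∃ F : Ordinal.{0} → Set X, IsSeq lam F ∧ B ⊆ transDiff lam F ∧ transDiff lam F ∩ C = ∅}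

/-- `α₁(f)`: the supremum of `α₁({f ≤ p}, {f ≥ q})` over all rationals `p < q`. -/
noncomputable def fnRank {X : Type} [TopologicalSpace X] (f : X → ℝ) : Ordinal.{0} :=
  ⨆ pq : {pq : ℚ × ℚ // pq.1 < pq.2}, sepRank {x | f x ≤ (pq.1.1 : ℝ)} {x | (pq.1.2 : ℝ) ≤ f x}

/-- Bounded functions of Baire class 1: the preimage of every closed set is a `G_δ` set, i.e. the preimage of every
open set is an `F_σ` set. -/
structure BddBaireOne {X : Type} [TopologicalSpace X] (f : X → ℝ) : Prop where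
  bdd : ∃ M : ℝ, ∀ x, |f x| ≤ M
  baire : ∀ K : Set ℝ, IsClosed K → IsGδ (f ⁻¹' K)

/-- A rank with the properties (P1)-(P4). Only the values at bounded functions of Baire class 1 on Polish spaces
play a role. -/
structure IsRank (ρ : ∀ (X : Type) [TopologicalSpace X], (X → ℝ) → Ordinal.{0}) : Prop where
  countable : ∀ (X : Type) [TopologicalSpace X] [PolishSpace X] (f : X → ℝ), BddBaireOne f →
    ρ X f < Ordinal.omega 1
  p1 : ∀ (X : Type) [TopologicalSpace X] [PolishSpace X] (A : Set X), IsGδ A → IsGδ Aᶜ →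
    Similar (ρ X (A.indicator fun _ => 1)) (sepRank A Aᶜ)
  p2_smul : ∀ (X : Type) [TopologicalSpace X] [PolishSpace X] (f : X → ℝ), BddBaireOne f →
    ∀ c : ℝ, c ≠ 0 → Similar (ρ X fun x => c * f x) (ρ X f)
  p2_add : ∀ (X : Type) [TopologicalSpace X] [PolishSpace X] (f g : X → ℝ), BddBaireOne f → BddBaireOne g →
    Below (ρ X fun x => f x + g x) (max (ρ X f) (ρ X g))
  p3 : ∀ (X : Type) [TopologicalSpace X] [PolishSpace X] (f : X → ℝ) (F : ℕ → X → ℝ), BddBaireOne f →
    (∀ n, BddBaireOne (F n)) → TendstoUniformly F f atTop → Below (ρ X f) (⨆ n, ρ X (F n))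
  p4 : ∀ (X : Type) [TopologicalSpace X] [PolishSpace X] (f : X → ℝ), BddBaireOne f →
    ∀ (h : ℝ → ℝ) (L : NNReal), LipschitzWith L h → Below (ρ X (h ∘ f)) (ρ X f)

end Pool.Agent.V11238.BR
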