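import Pool.Agent.V11238.BR.Refl

set_option autoImplicit false

open Set Filter Topology

namespace Pool.Agent.V11238.BR

variable {X : Type} [TopologicalSpace X]

/-! ### functions of Baire class 1 -/

theorem BddBaireOne.comp {f : X → ℝ} (hf : BddBaireOne f) {h : ℝ → ℝ} (hh : Continuous h) :
    BddBaireOne (h ∘ f) := by
  obtain ⟨M, hM⟩ := hf.bdd
  refine ⟨?_, fun K hK => ?_⟩
  · have hc : IsCompact (Icc (-M) M) := isCompact_Icc
    obtain ⟨N, hN⟩ := (hc.image hh).isBounded.exists_norm_le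
    exact ⟨N, fun x => hN _ ⟨f x, abs_le.1 (hM x), rfl⟩⟩
  · rw [preimage_comp]
    exact hf.baire _ (hK.preimage hh)

theorem BddBaireOne.add {f g : X → ℝ} (hf : BddBaireOne f) (hg : BddBaireOne g) :
    BddBaireOne fun x => f x + g x := by
  obtain ⟨M, hM⟩ := hf.bdd
  obtain ⟨N, hN⟩ := hg.bdd
  refine ⟨⟨M + N, fun x => (abs_add_le _ _).trans (add_le_add (hM x) (hN x))⟩, fun K hK => ?_⟩
  -- the preimage of the complement is a countable union of preimages of boxes
  have hfc : ∀ U : Set ℝ, IsOpen U → IsGδ (f ⁻¹' U)ᶜ := fun U hU => by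
    rw [← preimage_compl]; exact hf.baire _ hU.isClosed_compl
  have hgc : ∀ U : Set ℝ, IsOpen U → IsGδ (g ⁻¹' U)ᶜ := fun U hU => by
    rw [← preimage_compl]; exact hg.baire _ hU.isClosed_compl
  set T : Set (Set ℝ × Set ℝ) := {p | p.1 ∈ TopologicalSpace.countableBasis ℝ ∧
    p.2 ∈ TopologicalSpace.countableBasis ℝ ∧ ∀ a ∈ p.1, ∀ b ∈ p.2, a + b ∉ K} with hT
  have hTc : T.Countable := by
    refine Set.Countable.mono ?_ ((TopologicalSpace.countable_countableBasis ℝ).prod
      (TopologicalSpace.countable_countableBasis ℝ))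
    rintro ⟨a, b⟩ ⟨h1, h2, _⟩
    exact ⟨h1, h2⟩
  have heq : (fun x => f x + g x) ⁻¹' K = ⋂ p ∈ T, ((f ⁻¹' p.1)ᶜ ∪ (g ⁻¹' p.2)ᶜ) := by
    ext x
    simp only [mem_preimage, mem_iInter, mem_union, mem_compl_iff]
    constructor
    · intro hx p hp
      by_contra hcon
      push Not at hcon
      exact hp.2.2 _ hcon.1 _ hcon.2 hx
    · intro hx
      by_contra hcon
      have hopen : IsOpen {q : ℝ × ℝ | q.1 + q.2 ∈ Kᶜ} :=
        hK.isOpen_compl.preimage (continuous_fst.add continuous_snd)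
      have hmem : (f x, g x) ∈ {q : ℝ × ℝ | q.1 + q.2 ∈ Kᶜ} := hcon
      obtain ⟨U, V, hU, hV, hxU, hxV, hUV⟩ := isOpen_prod_iff.1 hopen (f x) (g x) hmem
      obtain ⟨U', hU', hxU', hUU⟩ := (TopologicalSpace.isBasis_countableBasis ℝ).exists_subset_of_mem_open hxU hU
      obtain ⟨V', hV', hxV', hVV⟩ := (TopologicalSpace.isBasis_countableBasis ℝ).exists_subset_of_mem_open hxV hV
      have hp : (U', V') ∈ T := ⟨hU', hV', fun a ha b hb => hUV (mk_mem_prod (hUU ha) (hVV hb))⟩
      rcases hx _ hp with h | h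
      · exact h hxU'
      · exact h hxV'
  rw [heq]
  refine IsGδ.biInter hTc fun p hp => ?_
  exact (hfc _ (TopologicalSpace.isOpen_of_mem_countableBasis hp.1)).union
    (hgc _ (TopologicalSpace.isOpen_of_mem_countableBasis hp.2.1))

theorem bdd_indicator {A : Set X} (h1 : IsGδ A) (h2 : IsGδ Aᶜ) :
    BddBaireOne (A.indicator fun _ => (1 : ℝ)) := by
  refine ⟨⟨1, fun x => ?_⟩, fun K _ => ?_⟩
  · by_cases hx : x ∈ A
    · simp [hx]
    · simp [hx]
  · have := Set.indicator_const_preimage A K (1 : ℝ)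
    simp only [mem_insert_iff, mem_singleton_iff] at this
    rcases this with h | h | h | h
    · rw [h]; exact IsGδ.univ
    · rw [h]; exact h1
    · rw [h]; exact h2
    · rw [h]; exact IsGδ.empty

/-! ### ranks of simple sets -/

theorem sepRank_closed {P : Set X} (hP : IsClosed P) : sepRank P Pᶜ ≤ 3 := by
  apply csInf_le'
  refine ⟨fun η => if η ≤ 1 then univ else if η = 2 then P else ∅, ?_, ?_, ?_⟩
  · refine ⟨?_, ?_, ?_, ?_, ?_⟩
    · intro η
      split_ifs
      · exact isClosed_univ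
      · exact hP
      · exact isClosed_empty
    · intro η θ hηθ
      split_ifs with h1 h2 h3 h4 h5 h6
      all_goals first
        | exact Subset.rfl
        | exact subset_univ _
        | exact empty_subset _
        | skip
      · exact absurd (hηθ.trans h1) h2
      · exact absurd (hηθ.trans h1) h2
      · exfalso
        subst h4
        have h7 : η < 2 := lt_of_le_of_ne hηθ h6
        apply h5
        have h8 : (2 : Ordinal.{0}) = Order.succ 1 := by
          rw [Order.succ_eq_add_one, one_add_one_eq_two]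
        rw [h8, Order.lt_succ_iff] at h7
        exact h7
    · simp
    · intro η hη
      have hω : Ordinal.omega0 ≤ η := Ordinal.omega0_le_of_isSuccLimit hη
      have h1 : ¬ η ≤ 1 := fun h => by
        have := (hω.trans h)
        exact absurd this (not_le.2 Ordinal.one_lt_omega0)
      have h2 : η ≠ 2 := fun h => by
        rw [h] at hω
        exact absurd hω (not_le.2 (Ordinal.nat_lt_omega0 2))
      rw [if_neg h1, if_neg h2]
      symm
      rw [eq_empty_iff_forall_notMem]
      intro x hx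
      have h3 := mem_iInter₂.1 hx 3 (lt_of_lt_of_le (Ordinal.nat_lt_omega0 3) hω)
      rw [if_neg, if_neg] at h3
      · exact h3
      · intro h
        have : ((3 : ℕ) : Ordinal.{0}) = ((2 : ℕ) : Ordinal.{0}) := by exact_mod_cast h
        rw [Nat.cast_inj] at this
        omega
      · intro h
        have : ((3 : ℕ) : Ordinal.{0}) ≤ ((1 : ℕ) : Ordinal.{0}) := by exact_mod_cast h
        rw [Nat.cast_le] at this
        omega
    · intro η hη
      rw [if_neg, if_neg]
      · intro h
        rw [h] at hη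
        have : ((3 : ℕ) : Ordinal.{0}) ≤ ((2 : ℕ) : Ordinal.{0}) := by exact_mod_cast hη
        rw [Nat.cast_le] at this
        omega
      · intro h
        have h' := hη.trans h
        have : ((3 : ℕ) : Ordinal.{0}) ≤ ((1 : ℕ) : Ordinal.{0}) := by exact_mod_cast h'
        rw [Nat.cast_le] at this
        omega
  · intro x hx
    have h23 : (2 : Ordinal.{0}) < 3 := by
      have : ((2 : ℕ) : Ordinal.{0}) < ((3 : ℕ) : Ordinal.{0}) := Nat.cast_lt.2 (by omega)
      exact_mod_cast this
    have h12 : ¬ (2 : Ordinal.{0}) ≤ 1 := by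
      intro h
      have : ((2 : ℕ) : Ordinal.{0}) ≤ ((1 : ℕ) : Ordinal.{0}) := by exact_mod_cast h
      rw [Nat.cast_le] at this
      omega
    refine ⟨2, h23, ⟨1, by simp⟩, ?_, ?_⟩
    · dsimp only
      rw [if_neg h12, if_pos rfl]
      exact hx
    · dsimp only
      rw [if_neg, if_neg]
      · exact notMem_empty x
      · intro h
        have h' : ((2 + 1 : ℕ) : Ordinal.{0}) = ((2 : ℕ) : Ordinal.{0}) := by exact_mod_cast h
        rw [Nat.cast_inj] at h'
        omega
      · intro h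
        have h' : ((2 + 1 : ℕ) : Ordinal.{0}) ≤ ((1 : ℕ) : Ordinal.{0}) := by exact_mod_cast h
        rw [Nat.cast_le] at h'
        omega
  · rw [eq_empty_iff_forall_notMem]
    rintro x ⟨⟨η, hη, hev, h1, h2⟩, hxP⟩
    dsimp only at h1 h2
    split_ifs at h1 with h3 h4
    · -- η ≤ 1 : η = 0 since even
      have h0 : η + 1 ≤ 1 := by
        rcases hev with ⟨ξ, rfl⟩
        rcases eq_or_ne ξ 0 with rfl | hξ
        · simp
        · exfalso
          have h5 : 1 ≤ ξ := Order.one_le_iff_pos.2 (pos_iff_ne_zero.2 hξ)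
          have h6 : (2 : Ordinal.{0}) * 1 ≤ 2 * ξ := mul_le_mul_right h5 2
          rw [mul_one] at h6
          have h7 := h6.trans h3
          have : ((2 : ℕ) : Ordinal.{0}) ≤ ((1 : ℕ) : Ordinal.{0}) := by exact_mod_cast h7
          rw [Nat.cast_le] at this
          omega
      rw [if_pos h0] at h2
      exact h2 trivial
    · exact hxP h1
    · exact h1

theorem isGδ_transDiff_compl [PolishSpace X] {lam : Ordinal.{0}} (hl : Countable (Iio lam))
    {F : Ordinal.{0} → Set X} (hF : IsSeq lam F) : IsGδ (transDiff lam F)ᶜ := by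
  letI := TopologicalSpace.upgradeIsCompletelyMetrizable X
  have heq : (transDiff lam F)ᶜ = ⋂ η : Iio lam, {x | EvenOrd η.1 → (x ∉ F η.1 ∨ x ∈ F (η.1 + 1))} := by
    ext x
    simp only [transDiff, mem_compl_iff, mem_iInter]
    constructor
    · intro h η hev
      by_contra hcon
      push Not at hcon
      exact h ⟨η.1, η.2, hev, hcon.1, hcon.2⟩
    · rintro h ⟨η, hη, hev, h1, h2⟩
      rcases h ⟨η, hη⟩ hev with h3 | h3
      · exact h3 h1
      · exact h2 h3
  rw [heq]
  refine IsGδ.iInter fun η => ?_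
  by_cases hev : EvenOrd η.1
  · have : {x | EvenOrd η.1 → (x ∉ F η.1 ∨ x ∈ F (η.1 + 1))} = (F η.1)ᶜ ∪ F (η.1 + 1) := by
      ext x
      simp only [mem_union, mem_compl_iff]
      exact ⟨fun h => h hev, fun h _ => h⟩
    rw [this]
    exact (hF.closed _).isOpen_compl.isGδ.union (hF.closed _).isGδ
  · have : {x | EvenOrd η.1 → (x ∉ F η.1 ∨ x ∈ F (η.1 + 1))} = univ := by
      ext x
      simp only [mem_univ, iff_true]
      exact fun h => absurd h hev
    rw [this]
    exact IsGδ.univ

/-- every point leaves a separating sequence at a definite place -/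
theorem exists_leave {lam : Ordinal.{0}} {F : Ordinal.{0} → Set X} (hF : IsSeq lam F) (x : X) :
    ∃ ζ < lam, x ∈ F ζ ∧ x ∉ F (ζ + 1) := by
  have hne : {θ : Ordinal.{0} | x ∉ F θ}.Nonempty := ⟨lam, by simp [hF.empty lam le_rfl]⟩
  obtain ⟨θ, hθ, hmin⟩ := WellFounded.has_min (wellFounded_lt (α := Ordinal.{0})) _ hne
  have hθl : θ ≤ lam := by
    by_contra hcon
    exact hmin lam (by simp [hF.empty lam le_rfl]) (not_le.1 hcon)
  have hin : ∀ ζ < θ, x ∈ F ζ := fun ζ hζ => by
    by_contra hcon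
    exact hmin ζ hcon hζ
  have hθ' : x ∉ F θ := hθ
  have h0 : θ ≠ 0 := by
    rintro rfl
    apply hθ'
    rw [hF.zero]
    trivial
  have hns : ¬ Order.IsSuccLimit θ := by
    intro hlim
    apply hθ'
    rw [hF.limit θ hlim]
    exact mem_iInter₂.2 fun ζ hζ => hin ζ hζ
  have : ∃ ζ, θ = Order.succ ζ := by
    by_contra hno
    push Not at hno
    apply hns
    refine ⟨by simpa using h0, ?_⟩
    intro a ha
    exact hno a (Order.succ_eq_of_covBy ha).symm
  obtain ⟨ζ, rfl⟩ := this
  exact ⟨ζ, (Order.lt_succ ζ).trans_le hθl, hin ζ (Order.lt_succ ζ), by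
    rwa [← Order.succ_eq_add_one]⟩

theorem isGδ_transDiff [PolishSpace X] {lam : Ordinal.{0}} (hl : Countable (Iio lam))
    {F : Ordinal.{0} → Set X} (hF : IsSeq lam F) : IsGδ (transDiff lam F) := by
  letI := TopologicalSpace.upgradeIsCompletelyMetrizable X
  have heq : transDiff lam F = ⋂ η : Iio lam, {x | ¬ EvenOrd η.1 → (x ∉ F η.1 ∨ x ∈ F (η.1 + 1))} := by
    ext x
    simp only [mem_iInter]
    constructor
    · rintro ⟨ζ, _, hevζ, h1, h2⟩ ⟨η, hη⟩ hodd
      by_contra hcon
      push Not at hcon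
      obtain ⟨h3, h4⟩ := hcon
      rcases lt_trichotomy ζ η with hlt | heq | hgt
      · exact h2 (hF.anti _ _ (by rw [← Order.succ_eq_add_one]; exact Order.succ_le_of_lt hlt) h3)
      · exact hodd (heq ▸ hevζ)
      · exact h4 (hF.anti _ _ (by rw [← Order.succ_eq_add_one]; exact Order.succ_le_of_lt hgt) h1)
    · intro h
      obtain ⟨ζ, hζ, h1, h2⟩ := exists_leave hF x
      refine ⟨ζ, hζ, ?_, h1, h2⟩
      by_contra hodd
      rcases h ⟨ζ, hζ⟩ hodd with h3 | h3
      · exact h3 h1
      · exact h2 h3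
  rw [heq]
  refine IsGδ.iInter fun η => ?_
  by_cases hev : EvenOrd η.1
  · have : {x | ¬ EvenOrd η.1 → (x ∉ F η.1 ∨ x ∈ F (η.1 + 1))} = univ := by
      ext x
      simp only [mem_univ, iff_true]
      exact fun h => absurd hev h
    rw [this]
    exact IsGδ.univ
  · have : {x | ¬ EvenOrd η.1 → (x ∉ F η.1 ∨ x ∈ F (η.1 + 1))} = (F η.1)ᶜ ∪ F (η.1 + 1) := by
      ext x
      simp only [mem_union, mem_compl_iff]
      exact ⟨fun h => h hev, fun h _ => h⟩
    rw [this]
    exact (hF.closed _).isOpen_compl.isGδ.union (hF.closed _).isGδ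

theorem transDiff_sepRank {lam : Ordinal.{0}} {F : Ordinal.{0} → Set X} (hF : IsSeq lam F) :
    sepRank (transDiff lam F) (transDiff lam F)ᶜ ≤ lam :=
  csInf_le' ⟨F, hF, Subset.rfl, inter_compl_self _⟩

/-! ### ordinals -/

theorem three_le {η : Ordinal.{0}} (h : 1 ≤ η) : (3 : Ordinal.{0}) ≤ Ordinal.omega0 ^ η := by
  have h1 : (3 : Ordinal.{0}) ≤ Ordinal.omega0 := by
    have := (Ordinal.nat_lt_omega0 3).le
    exact_mod_cast this
  have h2 : Ordinal.omega0 ^ (1 : Ordinal.{0}) ≤ Ordinal.omega0 ^ η :=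
    Ordinal.opow_le_opow_right Ordinal.omega0_pos h
  rw [Ordinal.opow_one] at h2
  exact h1.trans h2

theorem opow_lt {η : Ordinal.{0}} (h : η < Ordinal.omega 1) : Ordinal.omega0 ^ η < Ordinal.omega 1 :=
  Ordinal.isPrincipal_opow_omega 1 Ordinal.omega0_lt_omega_one h

end Pool.Agent.V11238.BR
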