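import Pool.Agent.V11238.BR.Sep

set_option autoImplicit false

open Set Filter Topology

namespace Pool.Agent.V11238.BR

theorem closed_shrink {X : Type} [MetricSpace X] (x : X) (K : ℕ → Set X) (hK : ∀ n, IsClosed (K n))
    (r : ℕ → ℝ) (hr : Tendsto r atTop (𝓝 0)) (h : ∀ n, K n ⊆ Metric.closedBall x (r n)) :
    IsClosed ({x} ∪ ⋃ n, K n) := by
  rw [← isOpen_compl_iff, isOpen_iff_mem_nhds]
  intro y hy
  simp only [mem_compl_iff, mem_union, mem_singleton_iff, mem_iUnion, not_or, not_exists] at hy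
  obtain ⟨hyx, hyK⟩ := hy
  have hδ : 0 < dist y x := dist_pos.2 hyx
  obtain ⟨N, hN⟩ := eventually_atTop.1 (hr.eventually (gt_mem_nhds (half_pos hδ)))
  have h1 : Metric.ball y (dist y x / 2) ∈ 𝓝 y := Metric.ball_mem_nhds y (half_pos hδ)
  have h2 : (⋃ n ∈ Finset.range N, K n)ᶜ ∈ 𝓝 y := by
    apply IsOpen.mem_nhds
    · exact (isClosed_biUnion_finset fun n _ => hK n).isOpen_compl
    · simp only [mem_compl_iff, mem_iUnion, not_exists]
      intro n _
      exact hyK n
  filter_upwards [h1, h2] with z hz1 hz2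
  simp only [mem_compl_iff, mem_union, mem_singleton_iff, mem_iUnion, not_or, not_exists]
  rw [Metric.mem_ball] at hz1
  refine ⟨?_, ?_⟩
  · rintro rfl
    rw [dist_comm] at hz1
    linarith
  · intro n hn
    by_cases hnN : n < N
    · apply hz2
      simp only [mem_iUnion]
      exact ⟨n, Finset.mem_range.2 hnN, hn⟩
    · have h3 := hN n (not_lt.1 hnN)
      have h4 := h n hn
      rw [Metric.mem_closedBall] at h4
      have h5 := dist_triangle_left y x z
      have h6 : dist z y < dist y x / 2 := hz1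
      linarith

theorem countable_Iio {ξ : Ordinal.{0}} (h : ξ < Ordinal.omega 1) : Countable (Iio ξ) := by
  rw [← Cardinal.mk_le_aleph0_iff, Cardinal.mk_Iio_ordinal]
  have h1 : ξ.card ≤ Cardinal.aleph0 := by
    rw [← Cardinal.ord_aleph, Cardinal.lt_ord] at h
    exact Cardinal.lt_aleph_one_iff.1 h
  exact Cardinal.lift_le_aleph0.2 h1

/-- reflection: a point of the canonical sequence of countable index lies in that of a closed subset of `B ∪ C` -/
theorem reflect {X : Type} [MetricSpace X] (B C : Set X) (ξ : Ordinal.{0}) (hξ : ξ < Ordinal.omega 1) :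
    ∀ x ∈ E B C ξ, x ∈ B ∪ C → ∀ ε : ℝ, 0 < ε → ∃ P : Set X, IsClosed P ∧ P ⊆ B ∪ C ∧ x ∈ P ∧
      P ⊆ Metric.closedBall x ε ∧ x ∈ E (B ∩ P) (C ∩ P) ξ := by
  induction ξ using WellFoundedLT.induction with
  | _ ξ ih =>
    intro x hx hxBC ε hε
    rcases eq_or_ne ξ 0 with rfl | h0
    · refine ⟨{x}, isClosed_singleton, by simpa using hxBC, rfl, ?_, ?_⟩
      · simp [hε.le]
      · rw [E_zero]; trivial
    have hc := countable_Iio hξ
    have hne : Nonempty (Iio ξ) := ⟨⟨0, by
      rw [mem_Iio]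
      exact pos_iff_ne_zero.2 h0⟩⟩
    obtain ⟨g, hg⟩ := exists_surjective_nat (Iio ξ)
    -- the radii
    set r : ℕ → ℝ := fun n => ε / ((n : ℝ) + 2) with hr
    have hrpos : ∀ n, 0 < r n := fun n => by positivity
    have hr0 : Tendsto (fun n => r n) atTop (𝓝 0) := by
      have h1 : Tendsto (fun n : ℕ => (n : ℝ) + 2) atTop atTop :=
        tendsto_atTop_add_const_right _ _ tendsto_natCast_atTop_atTop
      exact h1.const_div_atTop ε
    have hrle : ∀ n, 2 * r n ≤ ε := fun n => by
      rw [hr]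
      simp only
      rw [← mul_div_assoc, div_le_iff₀ (by positivity)]
      nlinarith [hε, (Nat.cast_nonneg n : (0 : ℝ) ≤ n)]
    -- the index at stage `n`
    set e : ℕ → Ordinal.{0} := fun n => (g (Nat.unpair n).1).1 with he
    have hee : ∀ n, e n < ξ := fun n => (g (Nat.unpair n).1).2
    have hstep : ∀ n, ∃ y : X, ∃ P : Set X, dist x y < r n ∧ y ∈ pick B C (e n) ∧ IsClosed P ∧
        P ⊆ B ∪ C ∧ y ∈ P ∧ P ⊆ Metric.closedBall y (r n) ∧ y ∈ E (B ∩ P) (C ∩ P) (e n) := by
      intro n
      have h1 := (mem_E.1 hx) (e n) (hee n)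
      rw [Metric.mem_closure_iff] at h1
      obtain ⟨y, ⟨hy1, hy2⟩, hy3⟩ := h1 (r n) (hrpos n)
      have hyBC : y ∈ B ∪ C := by
        unfold pick at hy2
        split_ifs at hy2
        · exact Or.inr hy2
        · exact Or.inl hy2
      obtain ⟨P, hP1, hP2, hP3, hP4, hP5⟩ := ih (e n) (hee n) ((hee n).trans hξ) y hy1 hyBC (r n) (hrpos n)
      exact ⟨y, P, hy3, hy2, hP1, hP2, hP3, hP4, hP5⟩
    choose y K hy1 hy2 hK1 hK2 hK3 hK4 hK5 using hstep
    refine ⟨{x} ∪ ⋃ n, K n, ?_, ?_, Or.inl rfl, ?_, ?_⟩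
    · apply closed_shrink x K hK1 (fun n => 2 * r n)
      · simpa using hr0.const_mul 2
      · intro n z hz
        have h1 := hK4 n hz
        rw [Metric.mem_closedBall] at h1 ⊢
        have h2 := hy1 n
        have h3 := dist_triangle z (y n) x
        rw [dist_comm (y n) x] at h3
        linarith
    · rintro z (hz | hz)
      · rw [mem_singleton_iff.1 hz]; exact hxBC
      · obtain ⟨n, hn⟩ := mem_iUnion.1 hz
        exact hK2 n hn
    · rintro z (hz | hz)
      · rw [mem_singleton_iff.1 hz]; simp [hε.le]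
      · obtain ⟨n, hn⟩ := mem_iUnion.1 hz
        have h1 := hK4 n hn
        rw [Metric.mem_closedBall] at h1 ⊢
        have h2 := hy1 n
        have h3 := dist_triangle z (y n) x
        rw [dist_comm (y n) x] at h3
        have h4 := hrle n
        linarith
    · rw [mem_E]
      intro ζ hζ
      rw [Metric.mem_closure_iff]
      intro δ hδ
      obtain ⟨m, hm⟩ := hg ⟨ζ, hζ⟩
      obtain ⟨N, hN⟩ := eventually_atTop.1 (hr0.eventually (gt_mem_nhds hδ))
      set n := Nat.pair m N with hn
      have hnN : N ≤ n := Nat.right_le_pair m N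
      have hen : e n = ζ := by
        rw [he]
        simp only [hn, Nat.unpair_pair, hm]
      refine ⟨y n, ⟨?_, ?_⟩, (hy1 n).trans (hN n hnN)⟩
      · rw [← hen]
        refine E_mono ?_ ?_ (e n) (hK5 n)
        · exact inter_subset_inter_right _ ((subset_iUnion K n).trans subset_union_right)
        · exact inter_subset_inter_right _ ((subset_iUnion K n).trans subset_union_right)
      · have hyP : y n ∈ ({x} ∪ ⋃ n, K n : Set X) := Or.inr (mem_iUnion.2 ⟨n, hK3 n⟩)
        have h2 := hy2 n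
        rw [hen] at h2
        unfold pick at h2 ⊢
        split_ifs at h2 ⊢
        · exact ⟨h2, hyP⟩
        · exact ⟨h2, hyP⟩

end Pool.Agent.V11238.BR
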