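import Pool.Agent.V11238.BR.Defs

set_option autoImplicit false

open Set Filter Topology

namespace Pool.Agent.V11238.BR

variable {X : Type} [TopologicalSpace X]

open Classical in
/-- the set used at step `η` -/
noncomputable def pick (B C : Set X) (η : Ordinal.{0}) : Set X := if EvenOrd η then C else B

/-- the canonical sequence -/
noncomputable def E (B C : Set X) (ξ : Ordinal.{0}) : Set X :=
  ⋂ ζ : Iio ξ, closure (E B C ζ.1 ∩ pick B C ζ.1)
termination_by ξ
decreasing_by exact ζ.2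

theorem mem_E {B C : Set X} {ξ : Ordinal.{0}} {x : X} :
    x ∈ E B C ξ ↔ ∀ ζ < ξ, x ∈ closure (E B C ζ ∩ pick B C ζ) := by
  rw [E, mem_iInter]
  exact ⟨fun h ζ hζ => h ⟨ζ, hζ⟩, fun h ζ => h ζ.1 ζ.2⟩

theorem E_closed (B C : Set X) (ξ : Ordinal.{0}) : IsClosed (E B C ξ) := by
  rw [E]
  exact isClosed_iInter fun _ => isClosed_closure

theorem E_anti (B C : Set X) (η θ : Ordinal.{0}) (h : η ≤ θ) : E B C θ ⊆ E B C η := by
  intro x hx
  rw [mem_E] at hx ⊢
  exact fun ζ hζ => hx ζ (hζ.trans_le h)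

theorem E_zero (B C : Set X) : E B C 0 = univ := by
  ext x
  simp only [mem_univ, iff_true]
  rw [mem_E]
  intro ζ hζ
  exact absurd hζ (not_lt_zero)

theorem E_limit (B C : Set X) (η : Ordinal.{0}) (hη : Order.IsSuccLimit η) :
    E B C η = ⋂ θ ∈ Iio η, E B C θ := by
  apply Subset.antisymm
  · exact subset_iInter₂ fun θ hθ => E_anti B C θ η (le_of_lt hθ)
  · intro x hx
    rw [mem_E]
    intro ζ hζ
    have h1 : Order.succ ζ < η := hη.succ_lt hζ
    have h2 := mem_iInter₂.1 hx (Order.succ ζ) h1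
    rw [mem_E] at h2
    exact h2 ζ (Order.lt_succ ζ)

theorem pick_mono {B C B' C' : Set X} (hB : B ⊆ B') (hC : C ⊆ C') (η : Ordinal.{0}) :
    pick B C η ⊆ pick B' C' η := by
  unfold pick
  split_ifs
  · exact hC
  · exact hB

theorem E_mono {B C B' C' : Set X} (hB : B ⊆ B') (hC : C ⊆ C') (ξ : Ordinal.{0}) :
    E B C ξ ⊆ E B' C' ξ := by
  induction ξ using WellFoundedLT.induction with
  | _ ξ ih =>
    intro x hx
    rw [mem_E] at hx ⊢
    intro ζ hζ
    exact closure_mono (inter_subset_inter (ih ζ hζ) (pick_mono hB hC ζ)) (hx ζ hζ)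

/-- the canonical sequence is a separating sequence once it is empty -/
theorem E_isSeq {B C : Set X} {lam : Ordinal.{0}} (h : E B C lam = ∅) : IsSeq lam (E B C) where
  closed := E_closed B C
  anti := E_anti B C
  zero := E_zero B C
  limit := E_limit B C
  empty := fun η hη => subset_empty_iff.1 (h ▸ E_anti B C lam η hη)

theorem E_sub_left {B C : Set X} {lam : Ordinal.{0}} (h : E B C lam = ∅) :
    B ⊆ transDiff lam (E B C) := by
  intro x hx
  have hne : {θ : Ordinal.{0} | x ∉ E B C θ}.Nonempty := ⟨lam, by simp [h]⟩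
  obtain ⟨θ, hθ, hmin⟩ := WellFounded.has_min (wellFounded_lt (α := Ordinal.{0})) _ hne
  have hθl : θ ≤ lam := by
    by_contra hcon
    exact hmin lam (by simp [h]) (not_le.1 hcon)
  rw [mem_setOf_eq, mem_E] at hθ
  push Not at hθ
  obtain ⟨ζ, hζ, hx'⟩ := hθ
  have hxζ : x ∈ E B C ζ := by
    by_contra hcon
    exact hmin ζ hcon hζ
  have hev : EvenOrd ζ := by
    by_contra hodd
    apply hx'
    apply subset_closure
    refine ⟨hxζ, ?_⟩
    unfold pick
    rw [if_neg hodd]
    exact hx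
  refine ⟨ζ, hζ.trans_le hθl, hev, hxζ, ?_⟩
  intro hcon
  rw [mem_E] at hcon
  exact hx' (hcon ζ (by rw [← Order.succ_eq_add_one]; exact Order.lt_succ ζ))

theorem E_disj_right (B C : Set X) (lam : Ordinal.{0}) :
    transDiff lam (E B C) ∩ C = ∅ := by
  rw [eq_empty_iff_forall_notMem]
  rintro x ⟨⟨η, _, hev, hx, hx'⟩, hxC⟩
  apply hx'
  rw [mem_E]
  intro ζ hζ
  rw [← Order.succ_eq_add_one, Order.lt_succ_iff] at hζ
  rcases hζ.lt_or_eq with hlt | rfl
  · rw [mem_E] at hx
    exact hx ζ hlt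
  · apply subset_closure
    refine ⟨hx, ?_⟩
    unfold pick
    rw [if_pos hev]
    exact hxC

theorem sepRank_le {B C : Set X} {lam : Ordinal.{0}} (h : E B C lam = ∅) : sepRank B C ≤ lam :=
  csInf_le' ⟨E B C, E_isSeq h, E_sub_left h, E_disj_right B C lam⟩

/-- every separating sequence is above the canonical one -/
theorem E_sub_seq {B C : Set X} {lam : Ordinal.{0}} {F : Ordinal.{0} → Set X} (hF : IsSeq lam F)
    (hB : B ⊆ transDiff lam F) (hC : transDiff lam F ∩ C = ∅) (ξ : Ordinal.{0}) : E B C ξ ⊆ F ξ := by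
  induction ξ using WellFoundedLT.induction with
  | _ ξ ih =>
    have key : ∀ ζ < ξ, closure (E B C ζ ∩ pick B C ζ) ⊆ F (ζ + 1) := by
      intro ζ hζ
      refine closure_minimal ?_ (hF.closed _)
      rintro x ⟨hx1, hx2⟩
      have hxF := ih ζ hζ hx1
      by_contra hcon
      unfold pick at hx2
      split_ifs at hx2 with hev
      · have hζl : ζ < lam := by
          by_contra hle
          rw [hF.empty ζ (not_lt.1 hle)] at hxF
          exact hxF
        have : x ∈ transDiff lam F ∩ C := ⟨⟨ζ, hζl, hev, hxF, hcon⟩, hx2⟩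
        rw [hC] at this
        exact this
      · obtain ⟨η, _, hevη, hη1, hη2⟩ := hB hx2
        rcases lt_trichotomy ζ η with hlt | heq | hgt
        · apply hcon
          exact hF.anti _ _ (by rw [← Order.succ_eq_add_one]; exact Order.succ_le_of_lt hlt) hη1
        · exact hev (heq ▸ hevη)
        · apply hη2
          exact hF.anti _ _ (by rw [← Order.succ_eq_add_one]; exact Order.succ_le_of_lt hgt) hxF
    intro x hx
    rcases eq_or_ne ξ 0 with rfl | h0
    · rw [hF.zero]; trivial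
    · by_cases hlim : Order.IsSuccLimit ξ
      · rw [hF.limit ξ hlim]
        refine mem_iInter₂.2 fun θ hθ => ?_
        exact ih θ hθ (E_anti B C θ ξ (le_of_lt hθ) hx)
      · have : ∃ ζ, ξ = Order.succ ζ := by
          by_contra hno
          push Not at hno
          apply hlim
          refine ⟨by simpa using h0, ?_⟩
          intro a ha
          exact hno a (Order.succ_eq_of_covBy ha).symm
        obtain ⟨ζ, rfl⟩ := this
        rw [mem_E] at hx
        have h1 := key ζ (Order.lt_succ ζ) (hx ζ (Order.lt_succ ζ))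
        rwa [← Order.succ_eq_add_one] at h1

theorem E_eq_empty_of_le {B C : Set X} {ξ : Ordinal.{0}} (hne : ∃ lam, E B C lam = ∅)
    (h : sepRank B C ≤ ξ) : E B C ξ = ∅ := by
  obtain ⟨lam, hlam⟩ := hne
  have hmem : sepRank B C ∈ {lam | ∃ F : Ordinal.{0} → Set X, IsSeq lam F ∧ B ⊆ transDiff lam F ∧
      transDiff lam F ∩ C = ∅} :=
    csInf_mem ⟨lam, E B C, E_isSeq hlam, E_sub_left hlam, E_disj_right B C lam⟩
  obtain ⟨F, hF, hB, hC⟩ := hmem
  have h1 : E B C (sepRank B C) ⊆ ∅ := by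
    have := E_sub_seq hF hB hC (sepRank B C)
    rwa [hF.empty _ le_rfl] at this
  exact subset_empty_iff.1 ((E_anti B C _ _ h).trans h1)

theorem exists_seq_of_le {B C : Set X} {ξ : Ordinal.{0}} (hne : ∃ lam, E B C lam = ∅)
    (h : sepRank B C ≤ ξ) : ∃ F : Ordinal.{0} → Set X, IsSeq ξ F ∧ B ⊆ transDiff ξ F ∧
      transDiff ξ F ∩ C = ∅ := by
  have h1 := E_eq_empty_of_le hne h
  exact ⟨E B C, E_isSeq h1, E_sub_left h1, E_disj_right B C ξ⟩

theorem even_two_mul (ζ : Ordinal.{0}) : EvenOrd (2 * ζ) := ⟨ζ, rfl⟩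

theorem not_even_two_mul_add_one (ζ : Ordinal.{0}) : ¬ EvenOrd (2 * ζ + 1) := by
  rintro ⟨ξ, hξ⟩
  have h1 : (2 * ζ + 1) % 2 = 1 := by
    rw [Ordinal.mul_add_mod_self]
    exact Ordinal.mod_eq_of_lt (by norm_num)
  rw [hξ, Ordinal.mul_mod] at h1
  exact zero_ne_one h1

/-- existence of a separating sequence for disjoint `G_δ` sets -/
theorem exists_empty [PolishSpace X] {B C : Set X} (hB : IsGδ B) (hC : IsGδ C) (hd : Disjoint B C) :
    ∃ lam, E B C lam = ∅ := by
  have hni := not_injective_of_ordinal (fun ξ : Ordinal.{0} => E B C (2 * ξ))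
  rw [Function.Injective] at hni
  push Not at hni
  have : ∃ ζ ξ : Ordinal.{0}, ζ < ξ ∧ E B C (2 * ζ) = E B C (2 * ξ) := by
    obtain ⟨a, b, hab, hne⟩ := hni
    rcases lt_or_gt_of_ne hne with h | h
    · exact ⟨a, b, h, hab⟩
    · exact ⟨b, a, h, hab.symm⟩
  obtain ⟨ζ, ξ, hlt, heq⟩ := this
  refine ⟨2 * ζ, ?_⟩
  set F := E B C (2 * ζ) with hFdef
  have hle : 2 * ζ + 1 < 2 * ξ := by
    have h1 : 2 * ζ + 2 ≤ 2 * ξ := by
      have : 2 * ζ + 2 = 2 * Order.succ ζ := by
        rw [Order.succ_eq_add_one, mul_add, mul_one]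
      rw [this]
      exact mul_le_mul_right (Order.succ_le_of_lt hlt) 2
    refine lt_of_lt_of_le ?_ h1
    gcongr
    norm_num
  have hlt0 : 2 * ζ < 2 * ζ + 1 := by
    rw [← Order.succ_eq_add_one]; exact Order.lt_succ _
  have hF1 : E B C (2 * ζ + 1) = F := by
    apply Subset.antisymm
    · exact E_anti B C _ _ hlt0.le
    · rw [heq]; exact E_anti B C _ _ hle.le
  have hcl := E_closed B C (2 * ζ)
  have hdC : F ⊆ closure (F ∩ C) := by
    intro x hx
    rw [heq, mem_E] at hx
    have := hx (2 * ζ) (hlt0.trans hle)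
    unfold pick at this
    rwa [if_pos (even_two_mul ζ)] at this
  have hdB : F ⊆ closure (F ∩ B) := by
    intro x hx
    rw [heq, mem_E] at hx
    have := hx (2 * ζ + 1) hle
    unfold pick at this
    rwa [if_neg (not_even_two_mul_add_one ζ), hF1] at this
  by_contra hne
  obtain ⟨x0, hx0⟩ := nonempty_iff_ne_empty.2 hne
  haveI : PolishSpace F := hcl.polishSpace
  have hGB : IsGδ ((↑) ⁻¹' B : Set F) := hB.preimage continuous_subtype_val
  have hGC : IsGδ ((↑) ⁻¹' C : Set F) := hC.preimage continuous_subtype_val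
  have hDB : Dense ((↑) ⁻¹' B : Set F) := by
    rw [Subtype.dense_iff]
    rw [Subtype.image_preimage_coe]
    exact hdB
  have hDC : Dense ((↑) ⁻¹' C : Set F) := by
    rw [Subtype.dense_iff]
    rw [Subtype.image_preimage_coe]
    exact hdC
  have hD := hDB.inter_of_Gδ hGB hGC hDC
  haveI : Nonempty F := ⟨⟨x0, hx0⟩⟩
  obtain ⟨y, hy⟩ := hD.nonempty
  exact disjoint_left.1 hd hy.1 hy.2

end Pool.Agent.V11238.BR
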